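import Mathlib

/-!
The covering theorem of Horn, Rado and Edmonds for finite sets of vectors: if every subset `A` of
the finite set `X` has at most `t * rank A` elements then `X` is the union of `t` linearly
independent sets.
-/

namespace Pool.Agent.Lib.P68998c

open Submodule Finset

section Covering

variable {K V : Type*} [Field K] [AddCommGroup V] [Module K V]

/-- The class of colour `j` among `X \ {x}`. -/
def cls (X : Finset V) (c : V → ℕ) (x : V) (j : ℕ) : Set V := {v | v ∈ X ∧ v ≠ x ∧ c v = j}

/-- A colouring of `X \ {x}` with `t` linearly independent classes. -/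
def Good (K : Type*) {V : Type*} [Field K] [AddCommGroup V] [Module K V]
    (t : ℕ) (X : Finset V) (c : V → ℕ) (x : V) : Prop :=
  x ∈ X ∧ (∀ v ∈ X, v ≠ x → c v < t) ∧ ∀ j, LinearIndepOn K id (cls X c x j)

/-- One exchange. -/
def Swap (K : Type*) {V : Type*} [Field K] [AddCommGroup V] [Module K V] [DecidableEq V]
    (t : ℕ) (X : Finset V) (p q : (V → ℕ) × V) : Prop :=
  q.2 ∈ X ∧ q.2 ≠ p.2 ∧ p.1 q.2 < t ∧
    p.2 ∉ span K (cls X p.1 p.2 (p.1 q.2) \ {q.2}) ∧ q.1 = Function.update p.1 p.2 (p.1 q.2)

lemma cls_swap_eq [DecidableEq V] {X : Finset V} {c : V → ℕ} {x y : V} (hx : x ∈ X)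
    (hyx : y ≠ x) :
    cls X (Function.update c x (c y)) y (c y) = insert x (cls X c x (c y) \ {y}) := by
  ext v
  simp only [cls, Set.mem_setOf_eq, Set.mem_insert_iff, Set.mem_sdiff, Set.mem_singleton_iff]
  by_cases hv : v = x
  · subst hv
    simp [hx, Ne.symm hyx]
  · simp only [hv, false_or, Function.update_of_ne (show v ≠ x from hv)]
    tauto

lemma cls_swap_ne [DecidableEq V] {X : Finset V} {c : V → ℕ} {x y : V} {j : ℕ}
    (hj : j ≠ c y) : cls X (Function.update c x (c y)) y j = cls X c x j := by
  ext v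
  simp only [cls, Set.mem_setOf_eq]
  by_cases hv : v = x
  · subst hv
    simp [Ne.symm hj]
  · rw [Function.update_of_ne hv]
    constructor
    · rintro ⟨h1, h2, h3⟩
      exact ⟨h1, hv, h3⟩
    · rintro ⟨h1, h2, h3⟩
      exact ⟨h1, fun h => hj (by rw [← h3, h]), h3⟩

lemma Good.swap [DecidableEq V] {t : ℕ} {X : Finset V} {p q : (V → ℕ) × V}
    (hp : Good K t X p.1 p.2) (h : Swap K t X p q) : Good K t X q.1 q.2 := by
  obtain ⟨c, x⟩ := p
  obtain ⟨c', y⟩ := q
  obtain ⟨h1, h2, h3, h4, h5⟩ := h
  simp only at h1 h2 h3 h4 h5 hp ⊢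
  subst h5
  refine ⟨h1, ?_, ?_⟩
  · intro v hv hvy
    by_cases hvx : v = x
    · subst hvx; rw [Function.update_self]; exact h3
    · rw [Function.update_of_ne hvx]; exact hp.2.1 v hv hvx
  · intro j
    by_cases hj : j = c y
    · subst hj
      rw [cls_swap_eq hp.1 h2]
      exact LinearIndepOn.id_insert ((hp.2.2 _).mono Set.sdiff_subset) h4
    · rw [cls_swap_ne hj]
      exact hp.2.2 j

lemma exists_support {S : Set V} (hfin : S.Finite) (hS : LinearIndepOn K id S) {x : V}
    (hx : x ∈ span K S) :
    ∃ J : Set V, J ⊆ S ∧ x ∈ span K J ∧ ∀ y ∈ J, x ∉ span K (S \ {y}) := by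
  classical
  have hne : ∃ n, ∃ J : Set V, J ⊆ S ∧ x ∈ span K J ∧ J.ncard = n :=
    ⟨_, S, subset_rfl, hx, rfl⟩
  obtain ⟨J, hJS, hxJ, hcard⟩ := Nat.find_spec hne
  refine ⟨J, hJS, hxJ, ?_⟩
  intro y hy hxy
  have hJfin : J.Finite := hfin.subset hJS
  have h1 : x ∉ span K (J \ {y}) := by
    intro hcon
    refine Nat.find_min hne (m := (J \ {y}).ncard) ?_ ⟨J \ {y}, Set.sdiff_subset.trans hJS, hcon, rfl⟩
    rw [← hcard]
    exact Set.ncard_sdiff_singleton_lt_of_mem hy hJfin
  have h2 : x ∈ span K (insert y (J \ {y})) := by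
    rw [Set.insert_sdiff_singleton, Set.insert_eq_of_mem hy]
    exact hxJ
  have h3 := mem_span_insert_exchange h2 h1
  have h4 : y ∈ span K (S \ {y}) := by
    have : span K (insert x (J \ {y})) ≤ span K (S \ {y}) := by
      rw [span_le]
      intro v hv
      rcases hv with rfl | hv
      · exact hxy
      · exact subset_span ⟨hJS hv.1, hv.2⟩
    exact this h3
  have h5 := hS.notMem_span (hJS hy)
  simp only [id_eq, Set.image_id'] at h5
  exact h5 h4

/-- The covering theorem. -/
theorem exists_cover [FiniteDimensional K V] (t : ℕ) (X : Finset V)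
    (h : ∀ A ⊆ X, A.card ≤ t * Module.finrank K (span K (A : Set V))) :
    ∃ c : V → ℕ, (∀ v ∈ X, c v < t) ∧ ∀ j, LinearIndepOn K id {v | v ∈ X ∧ c v = j} := by
  classical
  induction X using Finset.induction_on with
  | empty =>
    refine ⟨fun _ => 0, by simp, fun j => ?_⟩
    have : {v : V | v ∈ (∅ : Finset V) ∧ (0 : ℕ) = j} = ∅ := by ext; simp
    rw [this]
    exact linearIndepOn_empty K id
  | insert x₀ X₀ hx₀ ih =>
    set X := insert x₀ X₀ with hX
    obtain ⟨c₀, hc₀, hind₀⟩ := ih fun A hA => h A (hA.trans (Finset.subset_insert _ _))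
    by_contra hcon
    have hgood₀ : Good K t X c₀ x₀ := by
      refine ⟨Finset.mem_insert_self _ _, ?_, ?_⟩
      · intro v hv hvx
        exact hc₀ v ((Finset.mem_insert.1 hv).resolve_left hvx)
      · intro j
        refine (hind₀ j).mono ?_
        rintro v ⟨h1, h2, h3⟩
        exact ⟨(Finset.mem_insert.1 h1).resolve_left h2, h3⟩
    -- the uncovered element is spanned by each class
    have hspan : ∀ c x, Good K t X c x → ∀ j < t, x ∈ span K (cls X c x j) := by
      intro c x hg j hj
      by_contra hx
      apply hcon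
      refine ⟨Function.update c x j, ?_, ?_⟩
      · intro v hv
        by_cases hvx : v = x
        · subst hvx; rwa [Function.update_self]
        · rw [Function.update_of_ne hvx]; exact hg.2.1 v hv hvx
      · intro i
        by_cases hi : i = j
        · subst hi
          refine (LinearIndepOn.id_insert (hg.2.2 i) hx).mono ?_
          rintro v ⟨h1, h2⟩
          by_cases hvx : v = x
          · exact Or.inl hvx
          · rw [Function.update_of_ne hvx] at h2
            exact Or.inr ⟨h1, hvx, h2⟩
        · refine (hg.2.2 i).mono ?_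
          rintro v ⟨h1, h2⟩
          by_cases hvx : v = x
          · subst hvx
            rw [Function.update_self] at h2
            exact absurd h2.symm hi
          · rw [Function.update_of_ne hvx] at h2
            exact ⟨h1, hvx, h2⟩
    set R : (V → ℕ) × V → Prop := fun q => Relation.ReflTransGen (Swap K t X) (c₀, x₀) q with hR
    have hRgood : ∀ q, R q → Good K t X q.1 q.2 := by
      intro q hq
      induction hq with
      | refl => exact hgood₀
      | tail _ hs ih => exact ih.swap hs
    set A : Finset V := X.filter fun x => ∃ c, R (c, x) with hA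
    have hx₀A : x₀ ∈ A := by
      rw [hA, Finset.mem_filter]
      exact ⟨Finset.mem_insert_self _ _, c₀, Relation.ReflTransGen.refl⟩
    have hclaim1 : ∀ q, R q → ∀ j < t, q.2 ∈ span K (cls X q.1 q.2 j ∩ A) := by
      rintro ⟨c, x⟩ hq j hj
      have hg := hRgood _ hq
      have hfin : (cls X c x j).Finite := X.finite_toSet.subset fun v hv => hv.1
      obtain ⟨J, hJ, hxJ, hsw⟩ := exists_support hfin (hg.2.2 j) (hspan c x hg j hj)
      refine span_mono ?_ hxJ
      intro y hy
      refine ⟨hJ hy, ?_⟩
      obtain ⟨h1, h2, h3⟩ := hJ hy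
      have hstep : Swap K t X (c, x) (Function.update c x (c y), y) := by
        refine ⟨h1, h2, ?_, ?_, rfl⟩
        · simp only; omega
        · simp only; rw [h3]; exact hsw y hy
      rw [Finset.mem_coe, hA, Finset.mem_filter]
      exact ⟨h1, _, Relation.ReflTransGen.tail hq hstep⟩
    have hclaim2 : ∀ q, R q → ∀ j < t,
        span K (cls X q.1 q.2 j ∩ A) ≤ span K (cls X c₀ x₀ j ∩ A) := by
      intro q hq
      induction hq with
      | refl => intro j _; exact le_rfl
      | @tail p q hp hs ih =>
        intro j hj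
        refine le_trans ?_ (ih j hj)
        have hgp := hRgood p hp
        obtain ⟨h1, h2, h3, h4, h5⟩ := hs
        by_cases hjy : j = p.1 q.2
        · rw [h5, hjy, cls_swap_eq hgp.1 h2, span_le]
          rintro v ⟨hv | hv, hvA⟩
          · rw [hv]; exact hclaim1 p hp _ h3
          · exact subset_span ⟨hv.1, hvA⟩
        · rw [h5, cls_swap_ne hjy]
    have hclaim3 : ∀ j < t, span K (A : Set V) ≤ span K (cls X c₀ x₀ j ∩ A) := by
      intro j hj
      rw [span_le]
      intro x hx
      rw [Finset.mem_coe, hA, Finset.mem_filter] at hx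
      obtain ⟨hxX, c, hc⟩ := hx
      exact hclaim2 _ hc j hj (hclaim1 _ hc j hj)
    have hrk : ∀ j < t, Module.finrank K (span K (A : Set V)) ≤
        ((A.erase x₀).filter fun v => c₀ v = j).card := by
      intro j hj
      have h1 := Submodule.finrank_mono (hclaim3 j hj)
      have h2 : cls X c₀ x₀ j ∩ A = (((A.erase x₀).filter fun v => c₀ v = j : Finset V) : Set V) := by
        ext v
        simp only [cls, Set.mem_inter_iff, Set.mem_setOf_eq, Finset.coe_filter, Finset.mem_erase,
          Finset.mem_coe]
        constructor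
        · rintro ⟨⟨a1, a2, a3⟩, a4⟩; exact ⟨⟨a2, a4⟩, a3⟩
        · rintro ⟨⟨a2, a4⟩, a3⟩
          exact ⟨⟨(Finset.mem_filter.1 a4).1, a2, a3⟩, a4⟩
      rw [h2] at h1
      exact h1.trans (finrank_span_finset_le_card _)
    have hsum : t * Module.finrank K (span K (A : Set V)) ≤ (A.erase x₀).card := by
      have h1 : (A.erase x₀).card =
          ∑ j ∈ range t, ((A.erase x₀).filter fun v => c₀ v = j).card := by
        refine Finset.card_eq_sum_card_fiberwise ?_
        intro v hv
        rw [Finset.mem_coe, Finset.mem_erase] at hv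
        rw [Finset.mem_coe, Finset.mem_range]
        exact hgood₀.2.1 v (Finset.mem_filter.1 hv.2).1 hv.1
      rw [h1]
      calc t * Module.finrank K (span K (A : Set V)) =
          ∑ _j ∈ range t, Module.finrank K (span K (A : Set V)) := by simp
        _ ≤ _ := Finset.sum_le_sum fun j hj => hrk j (Finset.mem_range.1 hj)
    have h1 := h A (Finset.filter_subset _ _)
    rw [Finset.card_erase_of_mem hx₀A] at hsum
    have h2 : 0 < A.card := Finset.card_pos.2 ⟨_, hx₀A⟩
    omega

end Covering

end Pool.Agent.Lib.P68998c
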