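import Mathlib

/-!
Rank of a represented binary matroid, and the counting formula of Crapo and Rota.
-/

namespace Pool.Agent.Lib.P68998c

open Submodule Finset

variable {α : Type*} {n : ℕ}

lemma eRk_toNat_eq (M : Matroid α) [M.Finite] (v : α → (Fin n → ZMod 2))
    (hv : ∀ I, M.Indep I ↔ I ⊆ M.E ∧ LinearIndepOn (ZMod 2) v I) {X : Set α} (hX : X ⊆ M.E) :
    (M.eRk X).toNat = Module.finrank (ZMod 2) (span (ZMod 2) (v '' X)) := by
  classical
  obtain ⟨I, hI⟩ := M.exists_isBasis X
  have hfin : I.Finite := M.ground_finite.subset (hI.subset.trans hX)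
  have hli := ((hv I).1 hI.indep).2
  rw [← hI.encard_eq_eRk]
  have h1 : span (ZMod 2) (v '' X) = span (ZMod 2) (v '' I) := by
    refine le_antisymm ?_ (span_mono (Set.image_mono hI.subset))
    rw [span_le]
    rintro _ ⟨x, hx, rfl⟩
    by_contra hcon
    have h2 : M.Indep (insert x I) := by
      rw [hv]
      exact ⟨Set.insert_subset (hX hx) (hI.subset.trans hX), hli.insert hcon⟩
    have h3 := hI.mem_of_insert_indep hx h2
    exact hcon (subset_span ⟨x, h3, rfl⟩)
  rw [h1]
  have := hfin.fintype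
  have h4 := finrank_span_eq_card (R := ZMod 2) hli.linearIndependent
  have h5 : Set.range (fun i : I => v i) = v '' I := by
    ext w; simp
  rw [h5] at h4
  rw [h4, ← Set.ncard_def, Set.ncard_eq_toFinset_card', Set.toFinset_card]

/-- Counting `k`-tuples of functionals vanishing on a set of vectors. -/
lemma card_vanish (k : ℕ) (A : Set (Fin n → ZMod 2)) :
    Nat.card {Φ : Fin k → Module.Dual (ZMod 2) (Fin n → ZMod 2) // ∀ a ∈ A, ∀ j, Φ j a = 0} =
      2 ^ (k * (n - Module.finrank (ZMod 2) (span (ZMod 2) A))) := by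
  classical
  have e : {Φ : Fin k → Module.Dual (ZMod 2) (Fin n → ZMod 2) // ∀ a ∈ A, ∀ j, Φ j a = 0} ≃
      (Fin k → (span (ZMod 2) A).dualAnnihilator) :=
    { toFun := fun Φ j => ⟨Φ.1 j, by
        rw [mem_dualAnnihilator]
        intro w hw
        have : span (ZMod 2) A ≤ LinearMap.ker (Φ.1 j) := by
          rw [span_le]; intro a ha; exact Φ.2 a ha j
        exact this hw⟩
      invFun := fun Ψ => ⟨fun j => (Ψ j).1, fun a ha j => by
        have := (mem_dualAnnihilator _).1 (Ψ j).2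
        exact this a (subset_span ha)⟩
      left_inv := fun Φ => rfl
      right_inv := fun Ψ => rfl }
  rw [Nat.card_congr e, Nat.card_fun, Nat.card_eq_fintype_card (α := Fin k), Fintype.card_fin,
    Module.natCard_eq_pow_finrank (K := ZMod 2), Nat.card_zmod, ← pow_mul]
  have h1 := Subspace.finrank_add_finrank_dualAnnihilator_eq (K := ZMod 2) (span (ZMod 2) A)
  rw [Module.finrank_fin_fun] at h1
  congr 1
  rw [mul_comm]
  congr 1
  omega

/-- Crapo-Rota: positivity of the characteristic polynomial at `2 ^ k`. -/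
lemma charPoly_pos (k : ℕ) (v : α → (Fin n → ZMod 2)) (E : Finset α)
    (Φ₀ : Fin k → Module.Dual (ZMod 2) (Fin n → ZMod 2)) (hΦ₀ : ∀ e ∈ E, ∃ j, Φ₀ j (v e) ≠ 0)
    (r : Finset α → ℕ)
    (hr : ∀ A ⊆ E, r A = Module.finrank (ZMod 2) (span (ZMod 2) (v '' (A : Set α)))) :
    0 < ∑ A ∈ E.powerset, (-1 : ℤ) ^ A.card * (2 ^ k) ^ (r E - r A) := by
  classical
  have hfinD : Finite (Module.Dual (ZMod 2) (Fin n → ZMod 2)) :=
    Module.finite_of_finite (ZMod 2)
  let _ : Fintype (Module.Dual (ZMod 2) (Fin n → ZMod 2)) := Fintype.ofFinite _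
  have hle : ∀ A ⊆ E, r A ≤ r E := by
    intro A hA
    rw [hr A hA, hr E subset_rfl]
    exact Submodule.finrank_mono (span_mono (Set.image_mono (by exact_mod_cast hA)))
  have hEn : r E ≤ n := by
    rw [hr E subset_rfl]
    have := Submodule.finrank_le (span (ZMod 2) (v '' (E : Set α)))
    rwa [Module.finrank_fin_fun] at this
  have key : (2 : ℤ) ^ (k * (n - r E)) *
      ∑ A ∈ E.powerset, (-1 : ℤ) ^ A.card * (2 ^ k) ^ (r E - r A) =
      ((Finset.univ.filter fun Φ : Fin k → Module.Dual (ZMod 2) (Fin n → ZMod 2) =>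
        ∀ e ∈ E, ∃ j, Φ j (v e) ≠ 0).card : ℤ) := by
    rw [Finset.mul_sum]
    have h1 : ∀ A ∈ E.powerset, (2 : ℤ) ^ (k * (n - r E)) *
        ((-1 : ℤ) ^ A.card * (2 ^ k) ^ (r E - r A)) =
        (-1 : ℤ) ^ A.card * ∑ Φ : Fin k → Module.Dual (ZMod 2) (Fin n → ZMod 2),
          (if ∀ e ∈ A, ∀ j, Φ j (v e) = 0 then 1 else 0) := by
      intro A hA
      rw [Finset.mem_powerset] at hA
      rw [Finset.sum_boole]
      have h2 := card_vanish (n := n) k (v '' (A : Set α))
      rw [← hr A hA] at h2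
      have h3 : (Finset.univ.filter fun Φ : Fin k → Module.Dual (ZMod 2) (Fin n → ZMod 2) =>
          ∀ e ∈ A, ∀ j, Φ j (v e) = 0).card = 2 ^ (k * (n - r A)) := by
        rw [← h2, Nat.card_eq_fintype_card, Fintype.card_subtype]
        congr 1
        ext Φ
        simp
      rw [h3]
      have h4 := hle A hA
      have h5 : k * (n - r A) = k * (n - r E) + k * (r E - r A) := by
        rw [← Nat.mul_add]; congr 1; omega
      rw [h5, pow_add, pow_mul 2 k (r E - r A)]
      push_cast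
      ring
    rw [Finset.sum_congr rfl h1]
    simp only [Finset.mul_sum]
    rw [Finset.sum_comm, Finset.card_filter]
    push_cast
    refine Finset.sum_congr rfl fun Φ _ => ?_
    set Z : Finset α := E.filter fun e => ∀ j, Φ j (v e) = 0 with hZ
    have h2 : ∑ A ∈ E.powerset, (-1 : ℤ) ^ A.card *
        (if ∀ e ∈ A, ∀ j, Φ j (v e) = 0 then 1 else 0) = ∑ A ∈ Z.powerset, (-1 : ℤ) ^ A.card := by
      simp only [mul_ite, mul_one, mul_zero]
      rw [← Finset.sum_filter]
      refine Finset.sum_congr ?_ fun _ _ => rfl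
      ext A
      simp only [Finset.mem_filter, Finset.mem_powerset, hZ]
      constructor
      · rintro ⟨h1, h2⟩ e he
        exact Finset.mem_filter.2 ⟨h1 he, h2 e he⟩
      · intro h
        exact ⟨fun e he => (Finset.mem_filter.1 (h he)).1, fun e he => (Finset.mem_filter.1 (h he)).2⟩
    rw [h2, Finset.sum_powerset_neg_one_pow_card]
    have h3 : Z = ∅ ↔ ∀ e ∈ E, ∃ j, Φ j (v e) ≠ 0 := by
      rw [hZ, Finset.filter_eq_empty_iff]
      simp only [not_forall]
    simp only [h3]
  have hpos : (0 : ℤ) < ((Finset.univ.filter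
      fun Φ : Fin k → Module.Dual (ZMod 2) (Fin n → ZMod 2) =>
        ∀ e ∈ E, ∃ j, Φ j (v e) ≠ 0).card : ℤ) := by
    have : Φ₀ ∈ (Finset.univ.filter
      fun Φ : Fin k → Module.Dual (ZMod 2) (Fin n → ZMod 2) =>
        ∀ e ∈ E, ∃ j, Φ j (v e) ≠ 0) := by
      rw [Finset.mem_filter]; exact ⟨Finset.mem_univ _, hΦ₀⟩
    exact_mod_cast Finset.card_pos.2 ⟨_, this⟩
  rw [← key] at hpos
  exact pos_of_mul_pos_right hpos (by positivity)

end Pool.Agent.Lib.P68998c
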