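import Mathlib

/-!
Linear independence over `ZMod 2` of edge vectors of a simple graph is the same as acyclicity.
-/

namespace Pool.Agent.Lib.P68998c

open Submodule

variable {W Q : Type*} [AddCommGroup Q] [Module (ZMod 2) Q]

/-- The vector of an edge. -/
def edgeVec (ω : W → Q) : Sym2 W → Q :=
  Sym2.lift ⟨fun a b => ω a + ω b, fun a b => add_comm _ _⟩

@[simp] lemma edgeVec_mk (ω : W → Q) (a b : W) : edgeVec ω s(a, b) = ω a + ω b := rfl

lemma mem_span_iff_reachable (ω : W → Q)
    (hω : ∀ h : W → ZMod 2, ∃ ψ : Q →ₗ[ZMod 2] ZMod 2, ∀ a b, ψ (ω a + ω b) = h a + h b)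
    (S : Set (Sym2 W)) (a b : W) :
    ω a + ω b ∈ span (ZMod 2) (edgeVec ω '' S) ↔ (SimpleGraph.fromEdgeSet S).Reachable a b := by
  classical
  constructor
  · intro h
    by_contra hab
    obtain ⟨ψ, hψ⟩ := hω (fun c => if (SimpleGraph.fromEdgeSet S).Reachable a c then 1 else 0)
    have hker : span (ZMod 2) (edgeVec ω '' S) ≤ LinearMap.ker ψ := by
      rw [span_le]
      rintro _ ⟨e, he, rfl⟩
      rw [SetLike.mem_coe, LinearMap.mem_ker]
      induction e using Sym2.ind with
      | _ c d =>
        rw [edgeVec_mk, hψ]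
        by_cases hcd : c = d
        · subst hcd
          exact ZModModule.add_self _
        · have hadj : (SimpleGraph.fromEdgeSet S).Adj c d := by
            rw [SimpleGraph.fromEdgeSet_adj]; exact ⟨he, hcd⟩
          have : (SimpleGraph.fromEdgeSet S).Reachable a c ↔
              (SimpleGraph.fromEdgeSet S).Reachable a d :=
            ⟨fun h => h.trans hadj.reachable, fun h => h.trans hadj.symm.reachable⟩
          simp only [this]
          exact ZModModule.add_self _
    have h1 := hker h
    rw [LinearMap.mem_ker, hψ, if_pos (SimpleGraph.Reachable.refl a), if_neg hab] at h1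
    simp at h1
  · rintro ⟨p⟩
    induction p with
    | nil => rw [ZModModule.add_self]; exact zero_mem _
    | @cons u v w huv p ih =>
      have h1 : ω u + ω v ∈ span (ZMod 2) (edgeVec ω '' S) := by
        refine subset_span ⟨s(u, v), ?_, rfl⟩
        rw [SimpleGraph.fromEdgeSet_adj] at huv
        exact huv.1
      have h2 := add_mem h1 ih
      have h3 : ω u + ω v + (ω v + ω w) = ω u + ω w := by
        calc _ = ω u + ω w + (ω v + ω v) := by abel
          _ = _ := by rw [ZModModule.add_self, add_zero]
      rwa [h3] at h2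

theorem linearIndepOn_edgeVec_iff (ω : W → Q)
    (hω : ∀ h : W → ZMod 2, ∃ ψ : Q →ₗ[ZMod 2] ZMod 2, ∀ a b, ψ (ω a + ω b) = h a + h b)
    (S : Set (Sym2 W)) (hfin : S.Finite) (hdiag : ∀ e ∈ S, ¬ e.IsDiag) :
    LinearIndepOn (ZMod 2) (edgeVec ω) S ↔ (SimpleGraph.fromEdgeSet S).IsAcyclic := by
  induction S, hfin using Set.Finite.induction_on with
  | empty =>
    simp [SimpleGraph.isAcyclic_bot]
  | @insert e S he hfin ih =>
    have ih' := ih fun f hf => hdiag f (Set.mem_insert_of_mem _ hf)
    have hed := hdiag e (Set.mem_insert _ _)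
    induction e using Sym2.ind with
    | _ a b =>
      have hab : a ≠ b := by simpa using hed
      have h1 : SimpleGraph.fromEdgeSet (insert s(a, b) S) =
          SimpleGraph.fromEdgeSet S ⊔ SimpleGraph.edge a b := by
        rw [Set.insert_eq, Set.union_comm, SimpleGraph.edge, SimpleGraph.fromEdgeSet_union]
      rw [h1, SimpleGraph.isAcyclic_sup_fromEdgeSet_iff, ← ih', linearIndepOn_insert he,
        edgeVec_mk, mem_span_iff_reachable ω hω]
      have h2 : ¬ (SimpleGraph.fromEdgeSet S).Adj a b := by
        rw [SimpleGraph.fromEdgeSet_adj]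
        exact fun h => he h.1
      tauto

end Pool.Agent.Lib.P68998c
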