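import Mathlib

/-!
Fan paths in binary vector configurations: a configuration with no wheel minor with `a + 2` spokes
has at most `Nat.choose (2 * a + 1) a * rank` elements.
-/

namespace Pool.Agent.Lib.P68998c

open Submodule Finset

universe u

section Wheel

variable {V : Type u} [AddCommGroup V] [Module (ZMod 2) V]

/-- The set of vectors `E` has a wheel minor with `m + 1` spokes: after contracting `C ⊆ E` the
spokes `z i` are linearly independent and the rim elements are `x i = z i + z (i + 1)`. -/
def HasWheel (m : ℕ) (E : Set V) : Prop :=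
  ∃ (C : Set V) (z x : Fin (m + 1) → V), C ⊆ E ∧ (∀ i, z i ∈ E) ∧ (∀ i, x i ∈ E) ∧
    (∃ φ : V →ₗ[ZMod 2] (Fin (m + 1) → ZMod 2), (∀ c ∈ C, φ c = 0) ∧
      ∀ i, φ (z i) = Pi.single i 1) ∧
    ∀ i, x i + z i + z (i + 1) ∈ span (ZMod 2) C

lemma HasWheel.mono {m : ℕ} {E F : Set V} (h : HasWheel m E) (hEF : E ⊆ F) : HasWheel m F := by
  obtain ⟨C, z, x, hC, hz, hx, hφ, hs⟩ := h
  exact ⟨C, z, x, hC.trans hEF, fun i => hEF (hz i), fun i => hEF (hx i), hφ, hs⟩

lemma add_add_cancel_mid (u v w : V) : u + w = (u + v) + (v + w) := by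
  have h := ZModModule.add_self v
  calc u + w = u + (v + v) + w := by rw [h]; simp
    _ = _ := by abel

lemma sum_path (y : ℕ → V) (k : ℕ) : ∑ q ∈ range k, (y q + y (q + 1)) = y 0 + y k := by
  induction k with
  | zero => simp [ZModModule.add_self]
  | succ k ih =>
    rw [Finset.sum_range_succ, ih]
    exact (add_add_cancel_mid _ _ _).symm

lemma wheel_of_path {m : ℕ} {E : Set V} {y : ℕ → V} {k : ℕ} (C₀ : Set V) (hC₀ : C₀ ⊆ E)
    (hy : ∀ i ≤ k, y i ∈ E) (hx : ∀ i < k, y i + y (i + 1) ∈ E)
    (hφ : ∀ w : ℕ → (Fin (m + 1) → ZMod 2), ∃ φ : V →ₗ[ZMod 2] (Fin (m + 1) → ZMod 2),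
      (∀ c ∈ C₀, φ c = 0) ∧ ∀ p ≤ k, φ (y p) = w p)
    (T : Finset ℕ) (hT : T ⊆ range k) (hm : m ≤ T.card) (b : V) (hb : b ∈ E)
    (hbT : b + ∑ q ∈ T, (y q + y (q + 1)) ∈ span (ZMod 2) C₀) : HasWheel m E := by
  classical
  obtain ⟨T₀, hT₀, hcard⟩ := Finset.exists_subset_card_eq hm
  set g : ℕ → ℕ := fun p => (T₀.filter (· < p)).card with hg
  have hg0 : g 0 = 0 := by simp [hg]
  have hgk : g k = m := by
    have : T₀.filter (· < k) = T₀ := by
      apply Finset.filter_true_of_mem
      intro q hq
      exact Finset.mem_range.1 (hT (hT₀ hq))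
    simp [hg, this, hcard]
  have hgm : ∀ p, g p ≤ m := fun p => hcard ▸ Finset.card_filter_le _ _
  have hgs1 : ∀ p ∈ T₀, g (p + 1) = g p + 1 := by
    intro p hp
    have : T₀.filter (· < p + 1) = insert p (T₀.filter (· < p)) := by
      ext q
      simp only [Finset.mem_filter, Finset.mem_insert]
      constructor
      · rintro ⟨h1, h2⟩
        by_cases h : q = p
        · exact Or.inl h
        · exact Or.inr ⟨h1, by omega⟩
      · rintro (rfl | ⟨h1, h2⟩)
        · exact ⟨hp, by omega⟩
        · exact ⟨h1, by omega⟩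
    simp only [hg]
    rw [this, Finset.card_insert_of_notMem (by simp)]
  have hgs0 : ∀ p, p ∉ T₀ → g (p + 1) = g p := by
    intro p hp
    simp only [hg]
    congr 1
    ext q
    simp only [Finset.mem_filter]
    constructor
    · rintro ⟨h1, h2⟩
      have : q ≠ p := fun h => hp (h ▸ h1)
      exact ⟨h1, by omega⟩
    · rintro ⟨h1, h2⟩
      exact ⟨h1, by omega⟩
  have hstep : ∀ k', ∀ i < g k', ∃ t < k', t ∈ T₀ ∧ g t = i := by
    intro k'
    induction k' with
    | zero => intro i hi; rw [hg0] at hi; omega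
    | succ k' ih =>
      intro i hi
      by_cases hk : k' ∈ T₀
      · rw [hgs1 _ hk] at hi
        rcases Nat.lt_succ_iff_lt_or_eq.1 hi with h | h
        · obtain ⟨t, ht, h1, h2⟩ := ih i h
          exact ⟨t, by omega, h1, h2⟩
        · exact ⟨k', by omega, hk, h.symm⟩
      · rw [hgs0 _ hk] at hi
        obtain ⟨t, ht, h1, h2⟩ := ih i hi
        exact ⟨t, by omega, h1, h2⟩
  set C : Set V := C₀ ∪ {v | ∃ p < k, p ∉ T₀ ∧ v = y p + y (p + 1)} with hC
  have hclass' : ∀ p p', p ≤ p' → p' ≤ k → g p = g p' → y p + y p' ∈ span (ZMod 2) C := by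
    intro p p' hpp
    induction p', hpp using Nat.le_induction with
    | base => intro _ _; rw [ZModModule.add_self]; exact zero_mem _
    | succ p' hpp' ih =>
      intro hk hgg
      have hmono : g p ≤ g p' := Finset.card_le_card
        (fun q hq => by
          simp only [Finset.mem_filter] at hq ⊢
          exact ⟨hq.1, by omega⟩)
      have hp' : p' ∉ T₀ := by
        intro h
        rw [hgs1 _ h] at hgg
        omega
      rw [hgs0 _ hp'] at hgg
      rw [add_add_cancel_mid _ (y p')]
      refine add_mem (ih (by omega) hgg) (subset_span (Or.inr ⟨p', by omega, hp', rfl⟩))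
  have hclass : ∀ p p', p ≤ k → p' ≤ k → g p = g p' → y p + y p' ∈ span (ZMod 2) C := by
    intro p p' hp hp' hgg
    rcases le_total p p' with h | h
    · exact hclass' p p' h hp' hgg
    · rw [add_comm]; exact hclass' p' p h hp hgg.symm
  have hP : ∀ i : Fin (m + 1), ∃ p ≤ k, g p = i := by
    intro i
    by_cases hi : (i : ℕ) < m
    · obtain ⟨t, ht, h1, h2⟩ := hstep k i (by rw [hgk]; exact hi)
      exact ⟨t, by omega, h2⟩
    · exact ⟨k, le_rfl, by rw [hgk]; omega⟩
  choose P hPk hPg using hP
  have hX : ∀ i : Fin (m + 1), ∃ x ∈ E, x + y (P i) + y (P (i + 1)) ∈ span (ZMod 2) C := by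
    intro i
    by_cases hi : (i : ℕ) < m
    · obtain ⟨t, ht, h1, h2⟩ := hstep k i (by rw [hgk]; exact hi)
      refine ⟨y t + y (t + 1), hx t ht, ?_⟩
      have e1 : y t + y (P i) ∈ span (ZMod 2) C :=
        hclass _ _ (by omega) (hPk i) (by rw [h2, hPg])
      have hval : ((i + 1 : Fin (m + 1)) : ℕ) = i + 1 := by
        rw [Fin.val_add_one_of_lt]
        rw [Fin.lt_def]; simpa using hi
      have e2 : y (t + 1) + y (P (i + 1)) ∈ span (ZMod 2) C :=
        hclass _ _ (by omega) (hPk _) (by rw [hPg, hval, hgs1 _ h1, h2])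
      have := add_mem e1 e2
      convert this using 1
      abel
    · refine ⟨b, hb, ?_⟩
      have him : (i : ℕ) = m := by omega
      have hi0 : i + 1 = 0 := by
        have : i = Fin.last m := Fin.ext (by simpa using him)
        rw [this]; simp
      rw [hi0]
      have e1 : y (P i) + y k ∈ span (ZMod 2) C := hclass _ _ (hPk i) le_rfl (by rw [hPg, hgk, him])
      have e2 : y (P 0) + y 0 ∈ span (ZMod 2) C :=
        hclass _ _ (hPk 0) (by omega) (by rw [hPg, hg0]; rfl)
      have e3 : ∑ q ∈ range k \ T, (y q + y (q + 1)) ∈ span (ZMod 2) C := by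
        refine sum_mem fun q hq => subset_span (Or.inr ⟨q, ?_, ?_, rfl⟩)
        · exact Finset.mem_range.1 (Finset.mem_sdiff.1 hq).1
        · exact fun h => (Finset.mem_sdiff.1 hq).2 (hT₀ h)
      have e4 : ∑ q ∈ range k \ T, (y q + y (q + 1)) + ∑ q ∈ T, (y q + y (q + 1)) = y 0 + y k := by
        rw [Finset.sum_sdiff hT, sum_path]
      have e5 : b + ∑ q ∈ T, (y q + y (q + 1)) ∈ span (ZMod 2) C :=
        span_mono Set.subset_union_left hbT
      have e6 : b + (y 0 + y k) ∈ span (ZMod 2) C := by
        rw [← e4]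
        have := add_mem e5 e3
        convert this using 1
        abel
      have e7 := add_mem e6 (add_mem e1 e2)
      have e8 : b + (y 0 + y k) + (y (P i) + y k + (y (P 0) + y 0)) =
          b + y (P i) + y (P 0) + ((y 0 + y 0) + (y k + y k)) := by abel
      rw [e8, ZModModule.add_self, ZModModule.add_self] at e7
      simpa using e7
  choose X hXE hXs using hX
  obtain ⟨φ, hφ0, hφy⟩ := hφ (fun p i => if g p = i then 1 else 0)
  refine ⟨C, fun i => y (P i), X, ?_, fun i => hy _ (hPk i), hXE, ⟨φ, ?_, ?_⟩, hXs⟩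
  · rintro v (hv | ⟨p, hp, -, rfl⟩)
    · exact hC₀ hv
    · exact hx p hp
  · rintro v (hv | ⟨p, hp, hpT, rfl⟩)
    · exact hφ0 v hv
    · rw [map_add, hφy p hp.le, hφy (p + 1) (by omega), hgs0 _ hpT]
      exact ZModModule.add_self _
  · intro i
    rw [hφy _ (hPk i), hPg]
    funext j
    by_cases hij : i = j
    · subst hij; simp
    · have : (i : ℕ) ≠ j := fun h => hij (Fin.ext h)
      rw [Pi.single_eq_of_ne (Ne.symm hij)]
      simp [this]

lemma exists_map {k : ℕ} {y : ℕ → V}
    (h : LinearIndependent (ZMod 2) (fun i : Fin (k + 1) => y i)) {W : Type*} [AddCommGroup W]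
    [Module (ZMod 2) W] (w : ℕ → W) : ∃ φ : V →ₗ[ZMod 2] W, ∀ p ≤ k, φ (y p) = w p := by
  obtain ⟨φ, hφ⟩ := LinearMap.exists_extend
    ((Module.Basis.span h).constr (ZMod 2) (fun i : Fin (k + 1) => w i))
  refine ⟨φ, fun p hp => ?_⟩
  have h1 := congrArg (fun f => f ((Module.Basis.span h) ⟨p, by omega⟩)) hφ
  simp only [LinearMap.comp_apply, Submodule.subtype_apply, Module.Basis.constr_basis] at h1
  rw [Module.Basis.span_apply] at h1
  exact h1

/-- A fan path: linearly independent elements of `E` with consecutive sums in `E`. -/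
def FanPath (E : Set V) (y : ℕ → V) (k : ℕ) : Prop :=
  (∀ i ≤ k, y i ∈ E) ∧ (∀ i < k, y i + y (i + 1) ∈ E) ∧
    LinearIndependent (ZMod 2) (fun i : Fin (k + 1) => y i)

lemma exists_longest [FiniteDimensional (ZMod 2) V] {E : Set V} {e : V} (he : e ∈ E)
    (h0 : (0 : V) ∉ E) :
    ∃ k y, FanPath E y k ∧ ∀ y', ¬ FanPath E y' (k + 1) := by
  by_contra hcon
  push Not at hcon
  have : ∀ k, ∃ y, FanPath E y k := by
    intro k
    induction k with
    | zero =>
      refine ⟨fun _ => e, fun _ _ => he, fun i hi => absurd hi (by omega), ?_⟩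
      have : Subsingleton (Fin (0 + 1)) := inferInstanceAs (Subsingleton (Fin 1))
      exact LinearIndependent.of_subsingleton 0 (fun h => h0 (h ▸ he))
    | succ k ih =>
      obtain ⟨y, hy⟩ := ih
      exact hcon k y hy
  obtain ⟨y, hy⟩ := this (Module.finrank (ZMod 2) V)
  have := hy.2.2.fintype_card_le_finrank
  simp at this

lemma longest_spec {E : Set V} {k : ℕ} {y : ℕ → V} (hy : FanPath E y k)
    (hmax : ∀ y', ¬ FanPath E y' (k + 1)) {b : V} (hb : b ∈ E) (hby : b + y 0 ∈ E) :
    b ∈ span (ZMod 2) (Set.range fun i : Fin (k + 1) => y i) := by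
  by_contra hcon
  refine hmax (fun i => Nat.casesOn i b y) ⟨?_, ?_, ?_⟩
  · intro i hi
    cases i with
    | zero => exact hb
    | succ i => exact hy.1 i (by omega)
  · intro i hi
    cases i with
    | zero => exact hby
    | succ i => exact hy.2.1 i (by omega)
  · have := (linearIndependent_finCons (K := ZMod 2) (x := b)
      (v := fun i : Fin (k + 1) => y i)).2 ⟨hy.2.2, hcon⟩
    convert this using 1
    funext i
    refine Fin.cases ?_ (fun j => ?_) i
    · rfl
    · rfl

lemma mem_span_path {k : ℕ} {y : ℕ → V} {b : V}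
    (hb : b ∈ span (ZMod 2) (Set.range fun i : Fin (k + 1) => y i)) :
    ∃ T ⊆ range k, b = ∑ q ∈ T, (y q + y (q + 1)) ∨ b = ∑ q ∈ T, (y q + y (q + 1)) + y 0 := by
  classical
  have key : ∃ (c : ℕ → ZMod 2) (d : ZMod 2),
      b = ∑ q ∈ range k, c q • (y q + y (q + 1)) + d • y 0 := by
    induction hb using span_induction with
    | mem v hv =>
      obtain ⟨i, rfl⟩ := hv
      refine ⟨fun q => if q < i then 1 else 0, 1, ?_⟩
      have h1 : ∑ q ∈ range k, (if q < (i : ℕ) then (1 : ZMod 2) else 0) • (y q + y (q + 1)) =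
          ∑ q ∈ range (i : ℕ), (y q + y (q + 1)) := by
        rw [← Finset.sum_subset (s₁ := range (i : ℕ)) (s₂ := range k)]
        · refine Finset.sum_congr rfl fun q hq => ?_
          rw [if_pos (Finset.mem_range.1 hq), one_smul]
        · intro q hq
          rw [Finset.mem_range] at hq ⊢
          omega
        · intro q _ hq
          rw [Finset.mem_range] at hq
          rw [if_neg hq, zero_smul]
      rw [h1, sum_path, one_smul, add_comm (y 0), add_assoc, ZModModule.add_self, add_zero]
    | zero => exact ⟨0, 0, by simp⟩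
    | add u v _ _ hu hv =>
      obtain ⟨c, d, rfl⟩ := hu
      obtain ⟨c', d', rfl⟩ := hv
      refine ⟨c + c', d + d', ?_⟩
      simp only [Pi.add_apply, add_smul, Finset.sum_add_distrib]
      abel
    | smul a v _ hv =>
      obtain ⟨c, d, rfl⟩ := hv
      refine ⟨fun q => a * c q, a * d, ?_⟩
      simp only [smul_add, Finset.smul_sum, mul_smul]
  obtain ⟨c, d, hcd⟩ := key
  have hz : ∀ a : ZMod 2, a = 0 ∨ a = 1 := by decide
  have h1 : ∑ q ∈ range k, c q • (y q + y (q + 1)) =
      ∑ q ∈ (range k).filter (fun q => c q = 1), (y q + y (q + 1)) := by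
    rw [Finset.sum_filter]
    refine Finset.sum_congr rfl fun q _ => ?_
    rcases hz (c q) with h | h
    · rw [h]; simp
    · rw [h]; simp
  refine ⟨(range k).filter (fun q => c q = 1), Finset.filter_subset _ _, ?_⟩
  rcases hz d with h | h
  · left; rw [hcd, h1, h, zero_smul, add_zero]
  · right; rw [hcd, h1, h, one_smul]

/-- the admissible sets of steps -/
def Adm (a : ℕ) : Finset (Finset ℕ) :=
  (range (2 * a)).powerset.filter fun T => T.card ≤ a ∧ T ⊆ range (T.card + a)

lemma card_adm_le (a : ℕ) : (Adm a).card ≤ (2 * a + 1).choose a := by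
  classical
  have h := Finset.card_powersetCard a (range (2 * a + 1))
  rw [Finset.card_range] at h
  rw [← h]
  have hdisj : ∀ T ∈ Adm a, Disjoint T (Finset.Ico (a + 1 + T.card) (2 * a + 1)) := by
    intro T hT
    simp only [Adm, Finset.mem_filter] at hT
    rw [Finset.disjoint_left]
    intro q hq hq'
    have := Finset.mem_range.1 (hT.2.2 hq)
    have := (Finset.mem_Ico.1 hq').1
    omega
  refine Finset.card_le_card_of_injOn (fun T => T ∪ Finset.Ico (a + 1 + T.card) (2 * a + 1)) ?_ ?_
  · intro T hT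
    have hd := hdisj T hT
    simp only [Finset.mem_coe] at hT
    rw [Adm, Finset.mem_filter, Finset.mem_powerset] at hT
    rw [Finset.mem_coe, Finset.mem_powersetCard]
    constructor
    · refine Finset.union_subset (hT.1.trans (Finset.range_subset_range.2 (by omega))) ?_
      intro q hq
      exact Finset.mem_range.2 (Finset.mem_Ico.1 hq).2
    · rw [Finset.card_union_of_disjoint hd, Nat.card_Ico]
      omega
  · intro T hT T' hT' hTT
    simp only [Finset.mem_coe, Adm, Finset.mem_filter, Finset.mem_powerset] at hT hT' hTT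
    have key : ∀ S S' : Finset ℕ, S.card ≤ a → S ⊆ range (S.card + a) → S'.card ≤ a →
        S' ⊆ range (S'.card + a) →
        S ∪ Finset.Ico (a + 1 + S.card) (2 * a + 1) = S' ∪ Finset.Ico (a + 1 + S'.card) (2 * a + 1)
        → ¬ S.card < S'.card := by
      intro S S' h1 h2 h3 h4 h5 hlt
      have h6 : a + S'.card ∈ S ∪ Finset.Ico (a + 1 + S.card) (2 * a + 1) := by
        rw [Finset.mem_union, Finset.mem_Ico]; right; omega
      rw [h5, Finset.mem_union, Finset.mem_Ico] at h6
      rcases h6 with h6 | h6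
      · have := Finset.mem_range.1 (h4 h6)
        omega
      · omega
    have hc : T.card = T'.card := by
      have h1 := key T T' hT.2.1 hT.2.2 hT'.2.1 hT'.2.2 hTT
      have h2 := key T' T hT'.2.1 hT'.2.2 hT.2.1 hT.2.2 hTT.symm
      omega
    ext q
    have h1 : q ∈ T ∪ Finset.Ico (a + 1 + T.card) (2 * a + 1) ↔
        q ∈ T' ∪ Finset.Ico (a + 1 + T'.card) (2 * a + 1) := by rw [hTT]
    rw [Finset.mem_union, Finset.mem_union, Finset.mem_Ico, Finset.mem_Ico, hc] at h1
    constructor
    · intro hq
      have h2 := Finset.mem_range.1 (hT.2.2 hq)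
      rcases h1.1 (Or.inl hq) with h | h
      · exact h
      · omega
    · intro hq
      have h2 := Finset.mem_range.1 (hT'.2.2 hq)
      rcases h1.2 (Or.inl hq) with h | h
      · exact h
      · omega

/-- The key step: an end element of a longest fan path lies in few triangles. -/
lemma adm_of_triangle {a : ℕ} {E : Set V} (hW : ¬ HasWheel (a + 1) E) {k : ℕ} {y : ℕ → V}
    (hy : FanPath E y k) {T : Finset ℕ} (hT : T ⊆ range k)
    (h1 : ∑ q ∈ T, (y q + y (q + 1)) ∈ E) (h2 : ∑ q ∈ T, (y q + y (q + 1)) + y 0 ∈ E) :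
    T ∈ Adm a := by
  classical
  have hcard : T.card ≤ a := by
    by_contra hcon
    refine hW (wheel_of_path (k := k) (y := y) ∅ (Set.empty_subset _) hy.1 hy.2.1 ?_ T hT
      (by omega) _ h1 ?_)
    · intro w
      obtain ⟨φ, hφ⟩ := exists_map hy.2.2 w
      exact ⟨φ, by simp, hφ⟩
    · rw [ZModModule.add_self]; exact zero_mem _
  have hlt : T ⊆ range (T.card + a) := by
    rcases T.eq_empty_or_nonempty with rfl | hne
    · simp
    set t := T.max' hne with ht
    have htT : t ∈ T := Finset.max'_mem _ _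
    have htk : t < k := Finset.mem_range.1 (hT htT)
    have hsub : T ⊆ range (t + 1) := fun q hq => by
      have := Finset.le_max' T q hq
      rw [Finset.mem_range]; omega
    have hc : (range (t + 1) \ T).card = t + 1 - T.card := by
      rw [Finset.card_sdiff_of_subset hsub, Finset.card_range]
    have hT' : range (t + 1) \ T ⊆ range t := by
      intro q hq
      rw [Finset.mem_sdiff, Finset.mem_range] at hq
      rw [Finset.mem_range]
      have : q ≠ t := fun h => hq.2 (h ▸ htT)
      omega
    have hle : (range (t + 1) \ T).card ≤ a := by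
      by_contra hcon
      refine hW (wheel_of_path (k := t) (y := y) {y (t + 1)} ?_ (fun i hi => hy.1 i (by omega))
        (fun i hi => hy.2.1 i (by omega)) ?_ (range (t + 1) \ T) hT' (by omega) _ h2 ?_)
      · intro v hv
        rw [Set.mem_singleton_iff] at hv
        rw [hv]
        exact hy.1 _ (by omega)
      · intro w
        obtain ⟨φ, hφ⟩ := exists_map hy.2.2 (fun p => if p = t + 1 then 0 else w p)
        refine ⟨φ, ?_, ?_⟩
        · intro c hc
          rw [Set.mem_singleton_iff] at hc
          rw [hc, hφ _ (by omega), if_pos rfl]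
        · intro p hp
          rw [hφ _ (by omega), if_neg (by omega)]
      · have h3 := Finset.sum_sdiff hsub (f := fun q => y q + y (q + 1))
        rw [sum_path] at h3
        have h4 : ∑ q ∈ T, (y q + y (q + 1)) + y 0 + ∑ q ∈ range (t + 1) \ T, (y q + y (q + 1)) =
            y (t + 1) := by
          calc _ = (∑ q ∈ range (t + 1) \ T, (y q + y (q + 1)) + ∑ q ∈ T, (y q + y (q + 1))) +
              y 0 := by abel
            _ = y 0 + y (t + 1) + y 0 := by rw [h3]
            _ = (y 0 + y 0) + y (t + 1) := by abel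
            _ = _ := by rw [ZModModule.add_self, zero_add]
        rw [h4]
        exact subset_span rfl
    intro q hq
    have := Finset.mem_range.1 (hsub hq)
    rw [Finset.mem_range]
    omega
  rw [Adm, Finset.mem_filter, Finset.mem_powerset]
  exact ⟨hlt.trans (Finset.range_subset_range.2 (by omega)), hcard, hlt⟩

lemma hasWheel_of_quotient {m : ℕ} {E : Set V} {e : V} (he : e ∈ E) {E' : Set (V ⧸ span (ZMod 2) {e})}
    (hE' : E' ⊆ (span (ZMod 2) {e}).mkQ '' E) (h : HasWheel m E') : HasWheel m E := by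
  obtain ⟨C, z, x, hC, hz, hx, ⟨φ, hφC, hφz⟩, hs⟩ := h
  have hlz : ∀ i, ∃ v ∈ E, (span (ZMod 2) {e}).mkQ v = z i := fun i => hE' (hz i)
  have hlx : ∀ i, ∃ v ∈ E, (span (ZMod 2) {e}).mkQ v = x i := fun i => hE' (hx i)
  choose z' hz'E hz' using hlz
  choose x' hx'E hx' using hlx
  refine ⟨insert e {v | v ∈ E ∧ (span (ZMod 2) {e}).mkQ v ∈ C}, z', x', ?_, hz'E, hx'E,
    ⟨φ.comp (span (ZMod 2) {e}).mkQ, ?_, ?_⟩, ?_⟩
  · rintro v (rfl | hv)
    · exact he
    · exact hv.1
  · rintro v (rfl | hv)
    · rw [LinearMap.comp_apply]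
      have : (span (ZMod 2) {v}).mkQ v = 0 := by
        rw [mkQ_apply, Quotient.mk_eq_zero]; exact mem_span_singleton_self v
      rw [this, map_zero]
    · exact hφC _ hv.2
  · intro i
    rw [LinearMap.comp_apply, hz', hφz]
  · intro i
    have h1 : (span (ZMod 2) {e}).mkQ (x' i + z' i + z' (i + 1)) ∈ span (ZMod 2) C := by
      rw [map_add, map_add, hx', hz', hz']
      exact hs i
    have h2 : span (ZMod 2) C ≤ (span (ZMod 2) {v | v ∈ E ∧ (span (ZMod 2) {e}).mkQ v ∈ C}).map
        (span (ZMod 2) {e}).mkQ := by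
      rw [span_le]
      intro c hc
      obtain ⟨v, hvE, rfl⟩ := hE' (hC hc)
      exact ⟨v, subset_span ⟨hvE, hc⟩, rfl⟩
    obtain ⟨w, hw, hw'⟩ := h2 h1
    have h3 : x' i + z' i + z' (i + 1) - w ∈ span (ZMod 2) {e} := by
      rw [← Quotient.mk_eq_zero, ← mkQ_apply, map_sub, hw', sub_self]
    have h4 := add_mem (span_mono (Set.subset_insert e _) hw :
      w ∈ span (ZMod 2) (insert e {v | v ∈ E ∧ (span (ZMod 2) {e}).mkQ v ∈ C}))
      (span_mono (Set.singleton_subset_iff.2 (Set.mem_insert e _)) h3 :
      _ ∈ span (ZMod 2) (insert e {v | v ∈ E ∧ (span (ZMod 2) {e}).mkQ v ∈ C}))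
    convert h4 using 1
    abel

lemma finrank_map_lt [FiniteDimensional (ZMod 2) V] {p : Submodule (ZMod 2) V} {e : V}
    (he : e ∈ p) (h0 : e ≠ 0) :
    Module.finrank (ZMod 2) (p.map (span (ZMod 2) {e}).mkQ) + 1 ≤ Module.finrank (ZMod 2) p := by
  set f := (span (ZMod 2) {e}).mkQ.domRestrict p with hf
  have h1 := LinearMap.finrank_range_add_finrank_ker f
  have h2 : LinearMap.range f = p.map (span (ZMod 2) {e}).mkQ := by
    rw [hf, LinearMap.range_domRestrict]
  rw [h2] at h1
  have h3 : 0 < Module.finrank (ZMod 2) (LinearMap.ker f) := by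
    rw [Module.finrank_pos_iff_exists_ne_zero]
    refine ⟨⟨⟨e, he⟩, ?_⟩, ?_⟩
    · rw [LinearMap.mem_ker, hf, LinearMap.domRestrict_apply, mkQ_apply, Quotient.mk_eq_zero]
      exact mem_span_singleton_self e
    · intro h
      apply h0
      have := congrArg (fun v : LinearMap.ker f => ((v : p) : V)) h
      simpa using this
  omega

end Wheel

/-- A set of nonzero binary vectors of rank at most `n` with no wheel minor with `a + 2` spokes
has at most `choose (2 a + 1) a * n` elements. -/
theorem density (a n : ℕ) : ∀ (V : Type u) [AddCommGroup V] [Module (ZMod 2) V]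
    [FiniteDimensional (ZMod 2) V] (E : Finset V), (0 : V) ∉ E →
    ¬ HasWheel (a + 1) (E : Set V) →
    Module.finrank (ZMod 2) (span (ZMod 2) (E : Set V)) ≤ n → E.card ≤ (2 * a + 1).choose a * n := by
  classical
  induction n with
  | zero =>
    intro V _ _ _ E h0 hW hr
    have h1 : span (ZMod 2) (E : Set V) = ⊥ := by
      rw [← Submodule.finrank_eq_zero (R := ZMod 2)]; omega
    rw [span_eq_bot] at h1
    have h2 : E = ∅ := by
      rw [Finset.eq_empty_iff_forall_notMem]
      intro v hv
      exact h0 (h1 v hv ▸ hv)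
    simp [h2]
  | succ n ih =>
    intro V _ _ _ E h0 hW hr
    rcases E.eq_empty_or_nonempty with rfl | ⟨e₀, he₀⟩
    · simp
    obtain ⟨k, y, hy, hmax⟩ := exists_longest (E := (E : Set V)) he₀ (by simpa using h0)
    set e := y 0 with he
    have heE : e ∈ E := by simpa using hy.1 0 (by omega)
    have hen : e ≠ 0 := fun h => h0 (h ▸ heE)
    set π := (span (ZMod 2) {e}).mkQ with hπ
    set E' : Finset (V ⧸ span (ZMod 2) {e}) := (E.image π).erase 0 with hE'
    have hsub : (E' : Set (V ⧸ span (ZMod 2) {e})) ⊆ π '' (E : Set V) := by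
      rw [hE', ← Finset.coe_image]
      exact Finset.coe_subset.2 (Finset.erase_subset _ _)
    have hW' : ¬ HasWheel (a + 1) (E' : Set (V ⧸ span (ZMod 2) {e})) := fun h =>
      hW (hasWheel_of_quotient (by simpa using heE) hsub h)
    have hr' : Module.finrank (ZMod 2) (span (ZMod 2) (E' : Set (V ⧸ span (ZMod 2) {e}))) ≤ n := by
      have h1 := finrank_map_lt (p := span (ZMod 2) (E : Set V)) (e := e)
        (subset_span (by simpa using heE)) hen
      have h2 : span (ZMod 2) (E' : Set (V ⧸ span (ZMod 2) {e})) ≤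
          (span (ZMod 2) (E : Set V)).map π := by
        rw [Submodule.map_span]
        exact span_mono hsub
      have h3 := Submodule.finrank_mono h2
      rw [← hπ] at h1
      omega
    have hE'card := ih _ E' (Finset.notMem_erase _ _) hW' hr'
    set D : Finset V := ((Adm a).image fun T => ∑ q ∈ T, (y q + y (q + 1))).erase 0 with hD
    have hDcard : D.card + 1 ≤ (2 * a + 1).choose a := by
      have h1 : (0 : V) ∈ (Adm a).image fun T => ∑ q ∈ T, (y q + y (q + 1)) := by
        rw [Finset.mem_image]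
        exact ⟨∅, by simp [Adm], by simp⟩
      rw [hD, Finset.card_erase_of_mem h1]
      have h2 : 0 < ((Adm a).image fun T => ∑ q ∈ T, (y q + y (q + 1))).card :=
        Finset.card_pos.2 ⟨_, h1⟩
      have h3 := Finset.card_image_le (s := Adm a) (f := fun T => ∑ q ∈ T, (y q + y (q + 1)))
      have h4 := card_adm_le a
      omega
    have hinj : (E \ insert e D).card ≤ E'.card := by
      refine Finset.card_le_card_of_injOn π ?_ ?_
      · intro b hb
        rw [Finset.mem_coe, Finset.mem_sdiff, Finset.mem_insert, not_or] at hb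
        rw [Finset.mem_coe, hE', Finset.mem_erase]
        refine ⟨?_, Finset.mem_image_of_mem _ hb.1⟩
        rw [hπ, mkQ_apply, Ne, Quotient.mk_eq_zero, mem_span_singleton]
        rintro ⟨c, hc⟩
        have hz : c = 0 ∨ c = 1 := (by decide : ∀ c : ZMod 2, c = 0 ∨ c = 1) c
        rcases hz with rfl | rfl
        · rw [zero_smul] at hc
          exact h0 (hc ▸ hb.1)
        · rw [one_smul] at hc
          exact hb.2.1 hc.symm
      · intro b hb b' hb' hbb
        by_contra hne
        rw [Finset.mem_coe, Finset.mem_sdiff, Finset.mem_insert, not_or] at hb hb'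
        have h1 : b + b' ∈ span (ZMod 2) {e} := by
          rw [← ZModModule.sub_eq_add, ← Quotient.mk_eq_zero, ← mkQ_apply, map_sub,
            sub_eq_zero]
          exact hbb
        rw [mem_span_singleton] at h1
        obtain ⟨c, hc⟩ := h1
        have hz : c = 0 ∨ c = 1 := (by decide : ∀ c : ZMod 2, c = 0 ∨ c = 1) c
        have hb2 : b' = b + e := by
          rcases hz with rfl | rfl
          · exfalso
            rw [zero_smul] at hc
            apply hne
            have : b + b' + b' = b' := by rw [← hc, zero_add]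
            rw [add_assoc, ZModModule.add_self, add_zero] at this
            exact this
          · rw [one_smul] at hc
            rw [hc, ← add_assoc, ZModModule.add_self, zero_add]
        have h2 := longest_spec hy hmax (b := b) (by simpa using hb.1)
          (by rw [← he, ← hb2]; simpa using hb'.1)
        obtain ⟨T, hT, hT' | hT'⟩ := mem_span_path h2
        · have hA := adm_of_triangle hW hy hT (by rw [← hT']; simpa using hb.1)
            (by rw [← hT', ← he, ← hb2]; simpa using hb'.1)
          apply hb.2.2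
          rw [hD, Finset.mem_erase]
          exact ⟨fun h => h0 (h ▸ hb.1), Finset.mem_image.2 ⟨T, hA, hT'.symm⟩⟩
        · have h3 : b' = ∑ q ∈ T, (y q + y (q + 1)) := by
            rw [hb2, hT', ← he, add_assoc, ZModModule.add_self, add_zero]
          have hA := adm_of_triangle hW hy hT (by rw [← h3]; simpa using hb'.1)
            (by rw [← hT']; simpa using hb.1)
          apply hb'.2.2
          rw [hD, Finset.mem_erase]
          exact ⟨fun h => h0 (h ▸ hb'.1), Finset.mem_image.2 ⟨T, hA, h3.symm⟩⟩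
    have h5 : E.card ≤ (E \ insert e D).card + (insert e D).card := by
      exact Finset.card_le_card_sdiff_add_card
    have h6 := Finset.card_insert_le e D
    calc E.card ≤ (E \ insert e D).card + (insert e D).card := h5
      _ ≤ E'.card + (2 * a + 1).choose a := by omega
      _ ≤ (2 * a + 1).choose a * n + (2 * a + 1).choose a := by omega
      _ = _ := by ring

end Pool.Agent.Lib.P68998c
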